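import Pool.Agent.Y489.GE.Stm

/-!
# Project GE: the assembly
-/

set_option autoImplicit false

open Set Topology unitInterval Filter

noncomputable section

namespace Pool.Agent.Y489.GE

/-- the lengths of the loops which are contracted -/
theorem al_add (lam b : ℝ) (j : ℕ) :
    al lam b j + b = 2 * b * ∑ i ∈ Finset.range (j + 1), lam ^ i := by
  induction j with
  | zero => simp [al]; ring
  | succ j ih =>
    have h1 : al lam b (j + 1) + b = lam * (al lam b j + b) + 2 * b := by
      simp only [al]; ring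
    rw [h1, ih, Finset.sum_range_succ' _ (j + 1)]
    simp only [pow_succ, ← Finset.sum_mul, pow_zero]
    ring

theorem al_bounds {lam b : ℝ} (hlam : 1 ≤ lam) (hb : 0 ≤ b) {j q : ℕ} (hj : j < q) :
    2 * b ≤ al lam b j + b ∧ al lam b j + b ≤ 2 * b * ∑ i ∈ Finset.range q, lam ^ i := by
  have hl0 : 0 ≤ lam := by linarith
  rw [al_add]
  have h2 : (1 : ℝ) ≤ ∑ i ∈ Finset.range (j + 1), lam ^ i := by
    have := Finset.single_le_sum (f := fun i => lam ^ i) (s := Finset.range (j + 1))
      (fun i _ => pow_nonneg hl0 i) (Finset.mem_range.2 (Nat.succ_pos j))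
    simpa using this
  have h3 : ∑ i ∈ Finset.range (j + 1), lam ^ i ≤ ∑ i ∈ Finset.range q, lam ^ i :=
    Finset.sum_le_sum_of_subset_of_nonneg (Finset.range_subset_range.2 hj)
      (fun i _ _ => pow_nonneg hl0 i)
  constructor
  · nlinarith
  · exact mul_le_mul_of_nonneg_left h3 (by linarith)

theorem al_nonneg {lam b : ℝ} (hlam : 1 ≤ lam) (hb : 0 ≤ b) (q : ℕ) : 0 ≤ al lam b q := by
  have := (al_bounds hlam hb (Nat.lt_succ_self q)).1
  linarith

/-- limits of fixed polygons -/
theorem limit_polygon {X : Type} [MetricSpace X] [CompactSpace X] {r : ℝ} {m : X → X → ℝ → X}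
    (hm : GMap X r m) (N : ℕ) [NeZero N] (δ e : ℝ) (hδ : δ < r) (u : ℕ → ℝ)
    (hu : Tendsto u atTop (𝓝 δ))
    (hx : ∀ n, ∃ x ∈ Pol X N (u n), e ≤ En N x ∧ En N (ph m N (1 / 2) x) = En N x) :
    ∃ x ∈ Pol X N δ, e ≤ En N x ∧ En N (ph m N (1 / 2) x) = En N x := by
  choose x hx1 hx2 hx3 using hx
  obtain ⟨y, φ, hφ, hy⟩ := CompactSpace.tendsto_subseq x
  have hyi : ∀ i, Tendsto (fun n => x (φ n) i) atTop (𝓝 (y i)) := fun i =>
    (continuous_apply i).continuousAt.tendsto.comp hy
  have huφ : Tendsto (fun n => u (φ n)) atTop (𝓝 δ) := hu.comp hφ.tendsto_atTop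
  have hyP : y ∈ Pol X N δ := fun i =>
    le_of_tendsto_of_tendsto ((hyi i).dist (hyi (i + 1))) huφ (Eventually.of_forall
      fun n => hx1 (φ n) i)
  have hEn : ∀ {z : ℕ → ZMod N → X} {w : ZMod N → X}, (∀ i, Tendsto (fun n => z n i) atTop
      (𝓝 (w i))) → Tendsto (fun n => En N (z n)) atTop (𝓝 (En N w)) := by
    intro z w h
    unfold En
    exact tendsto_finsetSum _ fun i _ => ((h i).dist (h (i + 1))).pow 2
  have hE := hEn hyi
  have hev : ∀ᶠ n in atTop, u (φ n) ≤ r := (huφ.eventually (gt_mem_nhds hδ)).mono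
    fun n hn => le_of_lt hn
  have hph : ∀ i, Tendsto (fun n => ph m N (1 / 2) (x (φ n)) i) atTop
      (𝓝 (ph m N (1 / 2) y i)) := by
    intro i
    have hc := hm.cont (y i, y (i + 1), 1 / 2) ⟨(hyP i).trans hδ.le, by norm_num, by norm_num⟩
    have ht : Tendsto (fun n => ((x (φ n) i, x (φ n) (i + 1), 1 / 2) : X × X × ℝ)) atTop
        (𝓝[{q : X × X × ℝ | dist q.1 q.2.1 ≤ r ∧ q.2.2 ∈ Icc (0 : ℝ) 1}]
          (y i, y (i + 1), 1 / 2)) := by
      refine tendsto_nhdsWithin_iff.2 ⟨(hyi i).prodMk_nhds ((hyi (i + 1)).prodMk_nhds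
        tendsto_const_nhds), ?_⟩
      filter_upwards [hev] with n hn
      exact ⟨(hx1 (φ n) i).trans hn, by norm_num, by norm_num⟩
    exact hc.tendsto.comp ht
  refine ⟨y, hyP, ge_of_tendsto hE (Eventually.of_forall fun n => hx2 (φ n)), ?_⟩
  refine tendsto_nhds_unique (hEn hph) (hE.congr fun n => ?_)
  exact (hx3 (φ n)).symm

/-- contraction of maps, or a short closed geodesic -/
theorem core (h_MG : S_MG) (h_CG : S_CG) (h_BK : S_BK) (h_TR : S_TR) (h_OM : S_OM)
    (h_REC : S_REC) (h_SET : S_SET) (X G : Type) [MetricSpace X] [CompactSpace X] [Group G]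
    [TopologicalSpace G] [IsTopologicalGroup G] [MulAction G X] [ContinuousSMul G X] (p : X)
    (r lam : ℝ) (hr : 0 < r) (hX : GeodSpace X) (hU : UniqGeod X r)
    (hG : ∀ (g : G) (x y : X), dist (g • x) (g • y) ≤ lam * dist x y) (hs : LocSec X G p)
    (q : ℕ) (hq : 1 ≤ q) (K : Type) [MetricSpace K] [CompactSpace K] (hK : CovDim K q)
    (f : K → X) (hf : Continuous f) (A : Set K) (hA : ∀ k ∈ A, f k = p)
    (hno : ¬ ClosedGeod X (2 * (∑ i ∈ Finset.range q, lam ^ i) * Metric.diam (univ : Set X))) :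
    ∃ H : K → ℝ → X, Continuous (fun z : K × ℝ => H z.1 z.2) ∧ (∀ k, H k 0 = p) ∧
      (∀ k, H k 1 = f k) ∧ ∀ k ∈ A, ∀ s, H k s = p := by
  classical
  by_cases hsub : Subsingleton X
  · exact ⟨fun _ _ => p, continuous_const, fun _ => rfl, fun k => Subsingleton.elim _ _,
      fun _ _ _ => rfl⟩
  have hnt : Nontrivial X := not_subsingleton_iff_nontrivial.1 hsub
  obtain ⟨x₀, y₀, hxy⟩ := exists_pair_ne X
  have hd0 : 0 < dist x₀ y₀ := dist_pos.2 hxy
  have hlam : 1 ≤ lam := by
    have := hG 1 x₀ y₀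
    rw [one_smul, one_smul] at this
    nlinarith
  have hl0 : 0 ≤ lam := by linarith
  have hbd : Bornology.IsBounded (univ : Set X) := isCompact_univ.isBounded
  set D := Metric.diam (univ : Set X) with hD
  have hdD : ∀ x y : X, dist x y ≤ D := fun x y =>
    Metric.dist_le_diam_of_mem hbd (mem_univ x) (mem_univ y)
  have hDpos : 0 < D := lt_of_lt_of_le hd0 (hdD _ _)
  set S := ∑ i ∈ Finset.range q, lam ^ i with hS
  have hS1 : 1 ≤ S := by
    have := Finset.single_le_sum (f := fun i => lam ^ i) (s := Finset.range q)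
      (fun i _ => pow_nonneg hl0 i) (Finset.mem_range.2 hq)
    simpa using this
  obtain ⟨m, hm⟩ := h_MG X r hr hX hU
  have hr2 : 0 < r / 2 := by linarith
  obtain ⟨N, hN⟩ := exists_nat_gt (lam * (2 * S * D + 1) / (r / 2))
  have hL0 : 0 < 2 * S * D + 1 := by positivity
  have hN0 : (0 : ℝ) < N := lt_trans (by positivity) hN
  have hN' : N ≠ 0 := by
    rintro rfl
    simp at hN0
  have : NeZero N := ⟨hN'⟩
  have hNr : lam * ((2 * S * D + 1) / N) < r / 2 := by
    rw [div_lt_iff₀ hr2] at hN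
    rw [← mul_div_assoc, div_lt_iff₀ hN0]
    linarith
  have hlamN : ∀ a : ℝ, 0 < a → a ≤ 2 * S * D + 1 → lam * (a / N) ≤ r / 2 := by
    intro a _ ha
    refine le_trans (mul_le_mul_of_nonneg_left ?_ hl0) hNr.le
    exact div_le_div_of_nonneg_right ha hN0.le
  have hN1 : ∀ a : ℝ, 0 < a → a ≤ 2 * S * D + 1 → a / N ≤ r / 2 := by
    intro a h0 ha
    refine le_trans ?_ (hlamN a h0 ha)
    have : 0 ≤ a / N := by positivity
    nlinarith
  -- minimal geodesics from `p`
  have hpath : ∀ y : X, ∃ c ∈ Pa p D, c D = y := by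
    intro y
    obtain ⟨c, h0, h1, h2⟩ := hX p y
    have hcl : ∀ s : ℝ, max 0 (min (s / D) 1) ∈ Icc (0 : ℝ) 1 := fun s =>
      ⟨le_max_left _ _, max_le zero_le_one (min_le_right _ _)⟩
    refine ⟨fun s => c (max 0 (min (s / D) 1)), ⟨?_, ?_, ?_⟩, ?_⟩
    · intro s t
      rw [h2 _ (hcl s) _ (hcl t)]
      have h3 : |max 0 (min (s / D) 1) - max 0 (min (t / D) 1)| ≤ |s / D - t / D| := by
        refine (abs_max_sub_max_le_max _ _ _ _).trans ?_
        rw [sub_self, abs_zero]
        refine max_le (abs_nonneg _) ?_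
        refine (abs_min_sub_min_le_max _ _ _ _).trans ?_
        rw [sub_self, abs_zero]
        exact max_le le_rfl (abs_nonneg _)
      calc |max 0 (min (s / D) 1) - max 0 (min (t / D) 1)| * dist p y
          ≤ |s / D - t / D| * D := mul_le_mul h3 (hdD _ _) dist_nonneg (abs_nonneg _)
        _ = |s - t| := by
          rw [← sub_div, abs_div, abs_of_pos hDpos, div_mul_cancel₀ _ hDpos.ne']
    · intro t ht
      have : max 0 (min (t / D) 1) = 0 := by
        refine max_eq_left ((min_le_left _ _).trans ?_)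
        exact div_nonpos_of_nonpos_of_nonneg ht hDpos.le
      simp only [this, h0]
    · intro t ht
      have h3 : 1 ≤ t / D := by rwa [le_div_iff₀ hDpos, one_mul]
      simp only [min_eq_right h3, div_self hDpos.ne', min_self]
    · simp only [div_self hDpos.ne', min_self, max_eq_right zero_le_one, h1]
  -- small parameters
  by_cases hbad : ∀ ε : ℝ, 0 < ε → ε ≤ r / 2 → 2 * S * ε ≤ 1 →
      ∃ x ∈ Pol X N (2 * S * (D + ε) / N), (D / (N * N)) ^ 2 ≤ En N x ∧
        En N (ph m N (1 / 2) x) = En N x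
  · exfalso
    apply hno
    set ε₁ := min (r / 2) (1 / (2 * S)) with hε₁
    have hS2 : 0 < 2 * S := by linarith
    have hε₁0 : 0 < ε₁ := lt_min hr2 (by positivity)
    have hu : Tendsto (fun n : ℕ => 2 * S * (D + ε₁ * (1 / ((n : ℝ) + 1))) / N) atTop
        (𝓝 (2 * S * D / N)) := by
      have h1 : Tendsto (fun n : ℕ => 2 * S * (D + ε₁ * (1 / ((n : ℝ) + 1))) / N) atTop
          (𝓝 (2 * S * (D + ε₁ * 0) / N)) :=
        (tendsto_const_nhds.mul (tendsto_const_nhds.add (tendsto_const_nhds.mul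
          tendsto_one_div_add_atTop_nhds_zero_nat))).div_const _
      simpa using h1
    have hlt : 2 * S * D / N < r / 2 := by
      refine lt_of_lt_of_le ?_ (hN1 (2 * S * D + 1) hL0 le_rfl)
      exact div_lt_div_of_pos_right (by linarith) hN0
    obtain ⟨x, hx1, hx2, hx3⟩ := limit_polygon hm N (2 * S * D / N) ((D / (N * N)) ^ 2) hlt _ hu
      (by
        intro n
        have hn1 : (0 : ℝ) < 1 / ((n : ℝ) + 1) := by positivity
        have hn2 : 1 / ((n : ℝ) + 1) ≤ 1 := by
          rw [div_le_one (by positivity)]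
          have : (0 : ℝ) ≤ n := Nat.cast_nonneg n
          linarith
        have hle : ε₁ * (1 / ((n : ℝ) + 1)) ≤ ε₁ := by nlinarith
        refine hbad _ (by positivity) (hle.trans (min_le_left _ _)) ?_
        calc 2 * S * (ε₁ * (1 / ((n : ℝ) + 1))) ≤ 2 * S * (1 / (2 * S)) :=
              mul_le_mul_of_nonneg_left (hle.trans (min_le_right _ _)) hS2.le
          _ = 1 := mul_one_div_cancel hS2.ne')
    have hpos : 0 < En N x := lt_of_lt_of_le (by positivity) hx2
    have := h_CG X (r / 2) m hm N (2 * S * D / N) hlt.le x hx1 hx3 hpos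
    rwa [mul_div_cancel₀ _ hN0.ne'] at this
  · push Not at hbad
    obtain ⟨ε, hε0, hεr, hεS, hgood⟩ := hbad
    have hb0 : 0 < D + ε := by linarith
    -- contraction of the loops
    have hOm : ∀ j, j < q → OmC p (al lam (D + ε) j + (D + ε))
        (lam * (al lam (D + ε) j + (D + ε))) := by
      intro j hj
      obtain ⟨ha1, ha2⟩ := al_bounds hlam hb0.le hj
      rw [← hS] at ha2
      set a := al lam (D + ε) j + (D + ε) with ha
      have ha0 : 0 < a := by linarith
      have haL : a ≤ 2 * S * D + 1 := by nlinarith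
      have haN : 0 < a / N := by positivity
      have hPol : PolC X N (a / N) := by
        refine h_BK X (r / 2) m hm N (a / N) haN (hN1 a ha0 haL) ?_
        intro x hx hxe
        refine hgood x ?_ ?_
        · intro i
          refine (hx i).trans (div_le_div_of_nonneg_right ?_ hN0.le)
          linarith
        · refine le_trans ?_ hxe
          have h4 : D / (N * N) ≤ a / N / (2 * N) := by
            rw [div_div, div_le_div_iff₀ (by positivity) (by positivity)]
            have h5 : 2 * D ≤ a := by linarith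
            have h6 : (0 : ℝ) ≤ (N : ℝ) * N := by positivity
            nlinarith
          exact pow_le_pow_left₀ (by positivity) h4 2
      exact h_OM X (r / 2) m hm p lam a N hlam ha0 (hlamN a ha0 haL)
        (h_TR X G p lam hG hs hl0 N (a / N) hPol)
    obtain ⟨t, ρ, hdata⟩ := h_SET X K q hK (r / 2) m hm p D hDpos.le hpath ε hε0 hεr f hf A hA
    obtain ⟨Γ, hΓ1, hΓ2, hΓ3⟩ := h_REC X K p lam (D + ε) q hlam hb0.le hOm f A t ρ hdata
    refine ⟨fun k s => Γ k (s * al lam (D + ε) q), ?_, ?_, ?_, ?_⟩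
    · exact eval_cont (F := fun z : K × ℝ => Γ z.1) (hΓ1.comp continuous_fst)
        (fun z => (hΓ2 z.1).1.1) (continuous_snd.mul continuous_const)
    · intro k
      dsimp only
      rw [zero_mul]
      exact (hΓ2 k).1.2.1 0 le_rfl
    · intro k
      dsimp only
      rw [one_mul]
      exact (hΓ2 k).2
    · intro k hk s
      dsimp only
      rw [hΓ3 k hk]

/-- homotopy groups -/
theorem homotopyGroup_trivial (X : Type) [MetricSpace X] (p : X) (q : ℕ)
    (h : ∀ f : (Fin q → I) → X, Continuous f → (∀ k ∈ Cube.boundary (Fin q), f k = p) →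
      ∃ H : (Fin q → I) → ℝ → X, Continuous (fun z : (Fin q → I) × ℝ => H z.1 z.2) ∧
      (∀ k, H k 0 = p) ∧ (∀ k, H k 1 = f k) ∧ ∀ k ∈ Cube.boundary (Fin q), ∀ s, H k s = p) :
    Subsingleton (HomotopyGroup (Fin q) X p) := by
  have key : ∀ g : GenLoop (Fin q) X p, GenLoop.Homotopic GenLoop.const g := by
    intro g
    obtain ⟨H, h1, h2, h3, h4⟩ := h (fun k => g k) (map_continuous g.1) g.2
    refine ⟨⟨⟨⟨fun z => H z.2 z.1.1, ?_⟩, ?_, ?_⟩, ?_⟩⟩
    · exact h1.comp (continuous_snd.prodMk (continuous_subtype_val.comp continuous_fst))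
    · intro k
      exact h2 k
    · intro k
      exact h3 k
    · intro t k hk
      exact h4 k hk _
  refine ⟨fun a b => ?_⟩
  induction a using Quotient.inductionOn with | _ a => ?_
  induction b using Quotient.inductionOn with | _ b => ?_
  exact Quotient.sound ((key a).symm.trans (key b))

theorem contractible_of (X : Type) [MetricSpace X] (p : X)
    (h : ∃ H : X → ℝ → X, Continuous (fun z : X × ℝ => H z.1 z.2) ∧
      (∀ k, H k 0 = p) ∧ (∀ k, H k 1 = k)) : ContractibleSpace X := by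
  obtain ⟨H, h1, h2, h3⟩ := h
  rw [contractible_iff_id_nullhomotopic]
  refine ⟨p, ?_⟩
  refine ContinuousMap.Homotopic.symm ⟨⟨⟨fun z => H z.2 z.1.1, ?_⟩, ?_, ?_⟩⟩
  · exact h1.comp (continuous_snd.prodMk (continuous_subtype_val.comp continuous_fst))
  · intro k
    exact h2 k
  · intro k
    exact h3 k

/-- the main theorem, conditional on the parts -/
theorem main (h_MG : S_MG) (h_CG : S_CG) (h_BK : S_BK) (h_TR : S_TR) (h_OM : S_OM)
    (h_REC : S_REC) (h_SET : S_SET) (h_KUHN : S_KUHN) (X G : Type) [MetricSpace X]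
    [CompactSpace X] [Group G] [TopologicalSpace G] [IsTopologicalGroup G] [MulAction G X]
    [ContinuousSMul G X] (p : X) (r lam : ℝ) (hr : 0 < r) (hX : GeodSpace X)
    (hU : UniqGeod X r) (hG : ∀ (g : G) (x y : X), dist (g • x) (g • y) ≤ lam * dist x y)
    (hs : LocSec X G p) :
    (∀ q : ℕ, 1 ≤ q → Nontrivial (HomotopyGroup (Fin q) X p) →
      ClosedGeod X (2 * (∑ i ∈ Finset.range q, lam ^ i) * Metric.diam (univ : Set X))) ∧
    ∀ n : ℕ, 1 ≤ n → CovDim X n → ¬ ContractibleSpace X →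
      ClosedGeod X (2 * (∑ i ∈ Finset.range n, lam ^ i) * Metric.diam (univ : Set X)) := by
  constructor
  · intro q hq hπ
    by_contra hno
    have := homotopyGroup_trivial X p q fun f hf hA =>
      core h_MG h_CG h_BK h_TR h_OM h_REC h_SET X G p r lam hr hX hU hG hs q hq _ (h_KUHN q)
        f hf _ hA hno
    exact not_subsingleton _ this
  · intro n hn hC hcon
    by_contra hno
    apply hcon
    obtain ⟨H, h1, h2, h3, _⟩ := core h_MG h_CG h_BK h_TR h_OM h_REC h_SET X G p r lam hr hX hU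
      hG hs n hn X hC (fun x => x) continuous_id ∅ (fun k hk => hk.elim) hno
    exact contractible_of X p ⟨H, h1, h2, h3⟩

end Pool.Agent.Y489.GE
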