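import Pool.Agent.Y489.GE.Stm2
import Pool.Agent.Y489.GE.Fin

/-!
# Project GE: the assembly of the second part
-/

set_option autoImplicit false

open Set Topology Filter MeasureTheory

noncomputable section

namespace Pool.Agent.Y489.GE

theorem ClosedGeod.mono {X : Type} [MetricSpace X] {L L' : ℝ} (h : ClosedGeod X L)
    (hL : L ≤ L') : ClosedGeod X L' := by
  obtain ⟨γ, ℓ, h0, h1, h2, h3⟩ := h
  exact ⟨γ, ℓ, h0, h1.trans hL, h2, h3⟩

/-- sums of powers -/
def sg (lam : ℝ) (q : ℕ) : ℝ := ∑ i ∈ Finset.range q, lam ^ i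

theorem sg_ge_one {lam : ℝ} (hlam : 1 ≤ lam) {q : ℕ} (hq : 1 ≤ q) : 1 ≤ sg lam q := by
  have hl0 : 0 ≤ lam := by linarith
  have := Finset.single_le_sum (f := fun i => lam ^ i) (s := Finset.range q)
    (fun i _ => pow_nonneg hl0 i) (Finset.mem_range.2 hq)
  simpa [sg] using this

theorem cE_ge_one {Lam : ℝ} (hLam : 1 ≤ Lam) (q : ℕ) : 1 ≤ cE Lam q := by
  induction q with
  | zero => simp [cE]
  | succ q ih =>
    simp only [cE]
    nlinarith

/-- minimal geodesics as Moore paths -/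
theorem exists_path {X : Type} [MetricSpace X] (hX : GeodSpace X) (p y : X) {D : ℝ}
    (hD : 0 < D) (hd : dist p y ≤ D) : ∃ c ∈ Pa p D, c D = y := by
  obtain ⟨c, h0, h1, h2⟩ := hX p y
  have hcl : ∀ s : ℝ, max 0 (min (s / D) 1) ∈ Icc (0 : ℝ) 1 := fun s =>
    ⟨le_max_left _ _, max_le zero_le_one (min_le_right _ _)⟩
  refine ⟨fun s => c (max 0 (min (s / D) 1)), ⟨?_, ?_, ?_⟩, ?_⟩
  · intro s t
    rw [h2 _ (hcl s) _ (hcl t)]
    have h3 : |max 0 (min (s / D) 1) - max 0 (min (t / D) 1)| ≤ |s / D - t / D| := by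
      refine (abs_max_sub_max_le_max _ _ _ _).trans ?_
      rw [sub_self, abs_zero]
      refine max_le (abs_nonneg _) ?_
      refine (abs_min_sub_min_le_max _ _ _ _).trans ?_
      rw [sub_self, abs_zero]
      exact max_le le_rfl (abs_nonneg _)
    calc |max 0 (min (s / D) 1) - max 0 (min (t / D) 1)| * dist p y
        ≤ |s / D - t / D| * D := mul_le_mul h3 hd dist_nonneg (abs_nonneg _)
      _ = |s - t| := by
        rw [← sub_div, abs_div, abs_of_pos hD, div_mul_cancel₀ _ hD.ne']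
  · intro t ht
    have : max 0 (min (t / D) 1) = 0 := by
      refine max_eq_left ((min_le_left _ _).trans ?_)
      exact div_nonpos_of_nonpos_of_nonneg ht hD.le
    simp only [this, h0]
  · intro t ht
    have h3 : 1 ≤ t / D := by rwa [le_div_iff₀ hD, one_mul]
    simp only [min_eq_right h3, div_self hD.ne', min_self]
  · simp only [div_self hD.ne', min_self, max_eq_right zero_le_one, h1]

/-- no closed geodesics of length at most `L`: contraction of the loops of length `a ≤ L` -/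
theorem omC_of_no (h_CG : S_CG) (h_BK : S_BK) (h_TR : S_TR) (h_OM : S_OM)
    {X G : Type} [MetricSpace X] [CompactSpace X] [Group G]
    [TopologicalSpace G] [IsTopologicalGroup G] [MulAction G X] [ContinuousSMul G X] {p : X}
    {r lam : ℝ} {m : X → X → ℝ → X} (hm : GMap X r m) (hr : 0 < r) (hlam : 1 ≤ lam)
    (hG : ∀ (g : G) (x y : X), dist (g • x) (g • y) ≤ lam * dist x y) (hs : LocSec X G p)
    {L : ℝ} (hno : ¬ ClosedGeod X L) {a : ℝ} (ha : 0 < a) (haL : a ≤ L) :
    OmC p a (lam * a) := by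
  have hl0 : 0 < lam := by linarith
  obtain ⟨N, hN⟩ := exists_nat_gt (lam * a / r)
  have hN0 : (0 : ℝ) < N := lt_trans (by positivity) hN
  have hN' : N ≠ 0 := by
    rintro rfl
    simp at hN0
  have : NeZero N := ⟨hN'⟩
  have hNr : lam * (a / N) ≤ r := by
    rw [div_lt_iff₀ hr] at hN
    rw [← mul_div_assoc, div_le_iff₀ hN0]
    linarith
  have haN : 0 < a / N := by positivity
  have hN1 : a / N ≤ r := by
    refine le_trans ?_ hNr
    nlinarith
  have hPol : PolC X N (a / N) := by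
    refine h_BK X r m hm N (a / N) haN hN1 ?_
    intro x hx hxe he
    apply hno
    have hpos : 0 < En N x := lt_of_lt_of_le (by positivity) hxe
    have := h_CG X r m hm N (a / N) hN1 x hx he hpos
    rw [mul_div_cancel₀ _ hN0.ne'] at this
    exact this.mono haL
  exact h_OM X r m hm p lam a N hlam ha hNr (h_TR X G p lam hG hs hl0.le N (a / N) hPol)

/-- no short closed geodesics: local contractibility -/
theorem lc_of_no (h_MG : S_MG) (h_CG : S_CG) (h_BK : S_BK) (h_TR : S_TR) (h_OM : S_OM)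
    (h_REC : S_REC) (h_SETL : S_SETL) (X G : Type) [MetricSpace X] [CompactSpace X] [Group G]
    [TopologicalSpace G] [IsTopologicalGroup G] [MulAction G X] [ContinuousSMul G X]
    (r lam : ℝ) (hr : 0 < r) (hX : GeodSpace X) (hU : UniqGeod X r) (hlam : 1 ≤ lam)
    (hG : ∀ (g : G) (x y : X), dist (g • x) (g • y) ≤ lam * dist x y) (hs : ∀ p, LocSec X G p)
    (q : ℕ) (hq : 1 ≤ q) {L : ℝ} (hno : ¬ ClosedGeod X L) :
    LC X q (L / (4 * sg lam q)) (4 * sg lam (q + 1)) := by
  intro p K _ _ hK f hf s hs0 hsL hfs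
  have hS := sg_ge_one hlam hq
  obtain ⟨m, hm⟩ := h_MG X r hr hX hU
  have hr2 : 0 < r / 2 := by linarith
  set ε := min s (r / 2) with hε
  have hε0 : 0 < ε := lt_min hs0 hr2
  have hεs : ε ≤ s := min_le_left _ _
  have hb0 : 0 < s + ε := by linarith
  have hsL' : 4 * sg lam q * s ≤ L := by
    rw [le_div_iff₀ (by positivity)] at hsL
    linarith
  have hOm : ∀ j, j < q → OmC p (al lam (s + ε) j + (s + ε))
      (lam * (al lam (s + ε) j + (s + ε))) := by
    intro j hj
    obtain ⟨ha1, ha2⟩ := al_bounds hlam hb0.le hj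
    change _ ≤ 2 * (s + ε) * sg lam q at ha2
    refine omC_of_no h_CG h_BK h_TR h_OM hm hr2 hlam hG (hs p) hno (by linarith) ?_
    nlinarith
  obtain ⟨t, ρ, hdata⟩ := h_SETL X K q hK (r / 2) m hm p s hs0.le ε hε0 (min_le_right _ _) f hf
    (fun k => exists_path hX p (f k) hs0 (hfs k)) ∅ (fun k hk => hk.elim)
  obtain ⟨Γ, hΓ1, hΓ2, _⟩ := h_REC X K p lam (s + ε) q hlam hb0.le hOm f ∅ t ρ hdata
  have hal0 := al_nonneg hlam hb0.le q
  refine ⟨fun k u => Γ k (u * al lam (s + ε) q), ?_, ?_, ?_, ?_⟩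
  · exact eval_cont (F := fun z : K × ℝ => Γ z.1) (hΓ1.comp continuous_fst)
      (fun z => (hΓ2 z.1).1.1) (continuous_snd.mul continuous_const)
  · intro k
    dsimp only
    rw [zero_mul]
    exact (hΓ2 k).1.2.1 0 le_rfl
  · intro k
    dsimp only
    rw [one_mul]
    exact (hΓ2 k).2
  · intro k u hu
    dsimp only
    have h1 := (hΓ2 k).1.1 0 (u * al lam (s + ε) q)
    rw [(hΓ2 k).1.2.1 0 le_rfl, zero_sub, abs_neg,
      abs_of_nonneg (mul_nonneg hu.1 hal0)] at h1
    obtain ⟨_, ha2⟩ := al_bounds hlam hb0.le (Nat.lt_succ_self q)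
    change _ ≤ 2 * (s + ε) * sg lam (q + 1) at ha2
    have hS1 := sg_ge_one hlam (Nat.succ_le_succ (Nat.zero_le q))
    have h2 : u * al lam (s + ε) q ≤ al lam (s + ε) q := by
      nlinarith [hu.2]
    have h3 : 2 * (s + ε) * sg lam (q + 1) ≤ 4 * sg lam (q + 1) * s := by
      nlinarith
    linarith

/-- local contractibility at the scale of the geodesics -/
theorem lc_trivial {X : Type} [MetricSpace X] {r : ℝ} {m : X → X → ℝ → X} (hm : GMap X r m)
    (q : ℕ) : LC X q r 1 := by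
  intro p K _ _ _ f hf s _ hsr hfs
  have hm' : ∀ s : ℝ, max 0 (min s 1) ∈ Icc (0 : ℝ) 1 := fun s =>
    ⟨le_max_left _ _, max_le zero_le_one (min_le_right _ _)⟩
  have hd : ∀ k, dist p (f k) ≤ r := fun k => (hfs k).trans hsr
  refine ⟨fun k u => m p (f k) (max 0 (min u 1)), ?_, ?_, ?_, ?_⟩
  · have : Continuous fun z : K × ℝ => ((p, f z.1, max 0 (min z.2 1)) : X × X × ℝ) := by
      fun_prop
    exact hm.cont.comp_continuous this fun z => ⟨hd z.1, hm' z.2⟩
  · intro k
    dsimp only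
    rw [min_eq_left zero_le_one, max_self, hm.zero _ _ (hd k)]
  · intro k
    dsimp only
    rw [min_self, max_eq_right zero_le_one, hm.one _ _ (hd k)]
  · intro k u hu
    dsimp only
    rw [min_eq_left hu.2, max_eq_right hu.1, hm.dist_left (hd k) hu, one_mul]
    have : 0 ≤ dist p (f k) := dist_nonneg
    have h1 := hfs k
    nlinarith [hu.1, hu.2]

/-- the constant -/
def cW (lam : ℝ) (n : ℕ) : ℝ :=
  8 * sg lam (2 * n + 1) * cE (4 * sg lam (2 * n + 2)) (2 * n + 1)

theorem cW_pos {lam : ℝ} (hlam : 1 ≤ lam) (n : ℕ) : 0 < cW lam n := by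
  have h1 := sg_ge_one hlam (q := 2 * n + 1) (by omega)
  have h2 := sg_ge_one hlam (q := 2 * n + 2) (by omega)
  have h3 := cE_ge_one (Lam := 4 * sg lam (2 * n + 2)) (by linarith) (2 * n + 1)
  unfold cW
  positivity

/-- the main theorem of the second part, conditional on the parts -/
theorem main2 (h_MG : S_MG) (h_CG : S_CG) (h_BK : S_BK) (h_TR : S_TR) (h_OM : S_OM)
    (h_REC : S_REC) (h_SETL : S_SETL) (h_NRV : S_NRV) (h_WID : S_WID) (n : ℕ) (hn : 1 ≤ n)
    (lam : ℝ) (hlam : 1 ≤ lam) :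
    ∃ C : ℝ, 0 < C ∧ ∀ (X G : Type) [MetricSpace X] [CompactSpace X] [MeasurableSpace X]
      [BorelSpace X] [Group G] [TopologicalSpace G] [IsTopologicalGroup G] [MulAction G X]
      [ContinuousSMul G X] (r : ℝ), 0 < r → GeodSpace X → UniqGeod X r →
      (∀ (g : G) (x y : X), dist (g • x) (g • y) ≤ lam * dist x y) → (∀ p, LocSec X G p) →
      CovDim X n → ¬ Dom X n →
      (∀ w : ℝ, 0 < w → Cov X w n → ClosedGeod X (C * w)) ∧
      (μH[(n : ℝ)] (univ : Set X) ≠ ⊤ →
        ClosedGeod X (C * (μH[(n : ℝ)] (univ : Set X)).toReal ^ (1 / (n : ℝ)))) := by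
  obtain ⟨c, hc, hcov⟩ := h_WID n
  have hcW := cW_pos hlam n
  have hn0 : (n : ℝ) ≠ 0 := by
    have : n ≠ 0 := by omega
    exact_mod_cast this
  have hκ : (0 : ℝ) < (2 / c) ^ (1 / (n : ℝ)) := by positivity
  refine ⟨cW lam n * (1 + (2 / c) ^ (1 / (n : ℝ))), by positivity, ?_⟩
  intro X G _ _ _ _ _ _ _ _ _ r hr hX hU hG hs hdim hess
  have hwid : ∀ w : ℝ, 0 < w → Cov X w n → ClosedGeod X (cW lam n * w) := by
    intro w hw hcw
    by_contra hno
    apply hess
    obtain ⟨m, hm⟩ := h_MG X r hr hX hU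
    have hLC := lc_of_no h_MG h_CG h_BK h_TR h_OM h_REC h_SETL X G r lam hr hX hU hlam hG hs
      (2 * n + 1) (by omega) hno
    have h2 := sg_ge_one hlam (q := 2 * n + 2) (by omega)
    have h1 := sg_ge_one hlam (q := 2 * n + 1) (by omega)
    refine h_NRV X (r / 2) m hm (by linarith) n _ _ w ?_ hLC hdim hw hcw ?_
    · change 1 ≤ 4 * sg lam (2 * n + 2)
      linarith
    · rw [le_div_iff₀ (by positivity)]
      refine le_of_eq ?_
      simp only [cW]
      ring
  refine ⟨fun w hw hcw => (hwid w hw hcw).mono ?_, fun hfin => ?_⟩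
  · rw [mul_assoc]
    refine mul_le_mul_of_nonneg_left ?_ hcW.le
    nlinarith
  · set V := (μH[(n : ℝ)] (univ : Set X)).toReal with hV
    have hV0 : 0 ≤ V := ENNReal.toReal_nonneg
    have hVe : μH[(n : ℝ)] (univ : Set X) = ENNReal.ofReal V := (ENNReal.ofReal_toReal hfin).symm
    have hcovw : ∀ w : ℝ, 0 < w → V < c * w ^ n → Cov X w n := by
      intro w hw hVw
      refine hcov X w hw fun x => ?_
      calc μH[(n : ℝ)] (Metric.closedBall x w) ≤ μH[(n : ℝ)] (univ : Set X) :=
            measure_mono (subset_univ _)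
        _ = ENNReal.ofReal V := hVe
        _ < ENNReal.ofReal (c * w ^ n) := (ENNReal.ofReal_lt_ofReal_iff (by positivity)).2 hVw
    rcases hV0.eq_or_lt with hV0 | hVpos
    · exfalso
      apply hess
      obtain ⟨m, hm⟩ := h_MG X r hr hX hU
      have hr2 : 0 < r / 2 := by linarith
      have h1 := cE_ge_one (Lam := 1) le_rfl (2 * n + 1)
      have hw : 0 < r / 2 / (2 * cE 1 (2 * n + 1)) := by positivity
      refine h_NRV X (r / 2) m hm hr2 n (r / 2) 1 (r / 2 / (2 * cE 1 (2 * n + 1))) le_rfl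
        (lc_trivial hm _) hdim hw (hcovw _ hw ?_) ?_
      · rw [← hV0]
        positivity
      · refine le_of_eq ?_
        field_simp
    · have hw : 0 < (2 * V / c) ^ (1 / (n : ℝ)) := by positivity
      have hwn : ((2 * V / c) ^ (1 / (n : ℝ))) ^ n = 2 * V / c := by
        rw [← Real.rpow_natCast, ← Real.rpow_mul (by positivity), one_div,
          inv_mul_cancel₀ hn0, Real.rpow_one]
      have hCG := hwid _ hw (hcovw _ hw (by
        rw [hwn, mul_div_cancel₀ _ hc.ne']
        linarith))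
      refine hCG.mono ?_
      have h3 : (2 * V / c) ^ (1 / (n : ℝ)) = (2 / c) ^ (1 / (n : ℝ)) * V ^ (1 / (n : ℝ)) := by
        rw [← Real.mul_rpow (by positivity) hV0]
        congr 1
        ring
      rw [h3, mul_assoc]
      refine mul_le_mul_of_nonneg_left ?_ hcW.le
      have h4 : 0 ≤ V ^ (1 / (n : ℝ)) := by positivity
      nlinarith

end Pool.Agent.Y489.GE
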