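import Mathlib

/-!
# Project GE (helper489): short closed geodesics of Lipschitz homogeneous spaces

Definitions and statements.
-/

set_option autoImplicit false

open Set Topology unitInterval

noncomputable section

namespace Pool.Agent.Y489.GE

/-- any two points are joined by a minimal geodesic -/
def GeodSpace (X : Type) [MetricSpace X] : Prop :=
  ∀ x y : X, ∃ c : ℝ → X, c 0 = x ∧ c 1 = y ∧
    ∀ s ∈ Icc (0 : ℝ) 1, ∀ t ∈ Icc (0 : ℝ) 1, dist (c s) (c t) = |s - t| * dist x y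

/-- minimal geodesics between points at distance less than `r` are unique -/
def UniqGeod (X : Type) [MetricSpace X] (r : ℝ) : Prop :=
  ∀ x y z w : X, dist x y < r → dist x z + dist z y = dist x y →
    dist x w + dist w y = dist x y → dist x z = dist x w → z = w

/-- there is a closed geodesic (a periodic curve parametrised by arc length which is locally
minimal) of length `ℓ ∈ (0, L]` -/
def ClosedGeod (X : Type) [MetricSpace X] (L : ℝ) : Prop :=
  ∃ (γ : ℝ → X) (ℓ : ℝ), 0 < ℓ ∧ ℓ ≤ L ∧ (∀ t, γ (t + ℓ) = γ t) ∧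
    ∃ ε : ℝ, 0 < ε ∧ ∀ s t : ℝ, |s - t| ≤ ε → dist (γ s) (γ t) = |s - t|

/-- a continuous choice of minimal geodesics between points at distance at most `r` -/
structure GMap (X : Type) [MetricSpace X] (r : ℝ) (m : X → X → ℝ → X) : Prop where
  cont : ContinuousOn (fun q : X × X × ℝ => m q.1 q.2.1 q.2.2)
    {q : X × X × ℝ | dist q.1 q.2.1 ≤ r ∧ q.2.2 ∈ Icc (0 : ℝ) 1}
  zero : ∀ x y, dist x y ≤ r → m x y 0 = x
  one : ∀ x y, dist x y ≤ r → m x y 1 = y
  dist_eq : ∀ x y, dist x y ≤ r → ∀ s ∈ Icc (0 : ℝ) 1, ∀ t ∈ Icc (0 : ℝ) 1,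
    dist (m x y s) (m x y t) = |s - t| * dist x y

/-- closed polygons with `N` vertices and sides at most `δ` -/
def Pol (X : Type) [MetricSpace X] (N : ℕ) (δ : ℝ) : Set (ZMod N → X) :=
  {x | ∀ i, dist (x i) (x (i + 1)) ≤ δ}

/-- closed polygons with `N` vertices, sides at most `δ` and first vertex `p` -/
def Polp (X : Type) [MetricSpace X] (N : ℕ) (δ : ℝ) (p : X) : Set (ZMod N → X) :=
  {x | x ∈ Pol X N δ ∧ x 0 = p}

/-- the energy of a closed polygon -/
def En {X : Type} [MetricSpace X] (N : ℕ) [NeZero N] (x : ZMod N → X) : ℝ :=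
  ∑ i : ZMod N, dist (x i) (x (i + 1)) ^ 2

/-- all vertices are moved along the following side by the proportion `t` -/
def ph {X : Type} [MetricSpace X] (m : X → X → ℝ → X) (N : ℕ) (t : ℝ) (x : ZMod N → X) :
    ZMod N → X := fun i => m (x i) (x (i + 1)) t

/-- homotopies from `f` to `g` (parameter in the line, constant for `s ≤ 0` and `s ≥ 1`) with values
in `T`, stationary on `Z` -/
def Htp {Y W : Type} [TopologicalSpace Y] [TopologicalSpace W] (T : Set W) (Z : Set Y)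
    (f g : Y → W) : Prop :=
  ∃ H : Y → ℝ → W, Continuous (fun z : Y × ℝ => H z.1 z.2) ∧ (∀ y s, H y s ∈ T) ∧
    (∀ y s, s ≤ 0 → H y s = f y) ∧ (∀ y s, 1 ≤ s → H y s = g y) ∧ ∀ y ∈ Z, ∀ s, H y s = f y

/-- Moore loops: curves of speed at most one which are constant equal to `p` outside `[0, a]`.
The topology is that of pointwise convergence. -/
def Om {X : Type} [MetricSpace X] (p : X) (a : ℝ) : Set (ℝ → X) :=
  {d | (∀ s t, dist (d s) (d t) ≤ |s - t|) ∧ (∀ t, t ≤ 0 → d t = p) ∧ ∀ t, a ≤ t → d t = p}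

/-- Moore paths starting at `p` -/
def Pa {X : Type} [MetricSpace X] (p : X) (a : ℝ) : Set (ℝ → X) :=
  {d | (∀ s t, dist (d s) (d t) ≤ |s - t|) ∧ (∀ t, t ≤ 0 → d t = p) ∧ ∀ t, a ≤ t → d t = d a}

/-- pairs of Moore paths with the same end -/
def Qa {X : Type} [MetricSpace X] (p : X) (a b : ℝ) : Set ((ℝ → X) × (ℝ → X)) :=
  {z | z.1 ∈ Pa p a ∧ z.2 ∈ Pa p b ∧ z.1 a = z.2 b}

/-- the loops of length at most `a` are contracted within the loops of length at most `B` -/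
def OmC {X : Type} [MetricSpace X] (p : X) (a B : ℝ) : Prop :=
  Htp (Y := ↥(Om p a)) (W := ℝ → X) (Om p B) {d | d.1 = fun _ => p} (fun d => d.1)
    (fun _ _ => p)

/-- the polygons with sides at most `δ` are contracted to constant polygons -/
def PolC (X : Type) [MetricSpace X] (N : ℕ) (δ : ℝ) : Prop :=
  ∃ c : ↥(Pol X N δ) → X, Htp (Y := ↥(Pol X N δ)) (W := ZMod N → X) (Pol X N δ)
    {x | ∀ i, x.1 i = x.1 0} (fun x => x.1) (fun x _ => c x)

/-- the polygons with first vertex `p` are contracted to `p` -/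
def PolpC (X : Type) [MetricSpace X] (N : ℕ) (δ δ' : ℝ) (p : X) : Prop :=
  Htp (Y := ↥(Polp X N δ p)) (W := ZMod N → X) (Polp X N δ' p)
    {x | ∀ i, x.1 i = p} (fun x => x.1) (fun _ _ => p)

/-- the orbit map of `p` has a continuous local section -/
def LocSec (X G : Type) [MetricSpace X] [Group G] [TopologicalSpace G] [MulAction G X] (p : X) :
    Prop :=
  ∃ U ∈ 𝓝 p, ∃ v : X → G, ContinuousOn v U ∧ v p = 1 ∧ ∀ x ∈ U, v x • p = x

/-- the compact metric space `K` has covering dimension at most `q` -/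
def CovDim (K : Type) [MetricSpace K] (q : ℕ) : Prop :=
  ∀ ε : ℝ, 0 < ε → ∃ (n : ℕ) (U : Fin n → Set K), (∀ i, IsOpen (U i)) ∧
    (∀ i, ∀ x ∈ U i, ∀ y ∈ U i, dist x y ≤ ε) ∧ (∀ x, ∃ i, x ∈ U i) ∧
    ∀ x, Nat.card {i : Fin n // x ∈ U i} ≤ q + 1

/-- the lengths in the construction -/
def al (lam b : ℝ) : ℕ → ℝ
  | 0 => b
  | j + 1 => lam * (al lam b j + b) + b

/-! ### the statements -/

/-- the geodesics between near points depend continuously on the end points -/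
def S_MG : Prop := ∀ (X : Type) [MetricSpace X] [CompactSpace X] (r : ℝ), 0 < r →
  GeodSpace X → UniqGeod X r → ∃ m : X → X → ℝ → X, GMap X (r / 2) m

/-- the motion of polygons does not increase the sides nor the energy -/
def S_EN : Prop := ∀ (X : Type) [MetricSpace X] (r : ℝ) (m : X → X → ℝ → X), GMap X r m →
  ∀ (N : ℕ) [NeZero N] (δ : ℝ), δ ≤ r → ∀ x ∈ Pol X N δ, ∀ t ∈ Icc (0 : ℝ) 1,
    ph m N t x ∈ Pol X N δ ∧ En N (ph m N t x) ≤ En N x

/-- equality gives a closed geodesic -/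
def S_CG : Prop := ∀ (X : Type) [MetricSpace X] (r : ℝ) (m : X → X → ℝ → X), GMap X r m →
  ∀ (N : ℕ) [NeZero N] (δ : ℝ), δ ≤ r → ∀ x ∈ Pol X N δ, En N (ph m N (1 / 2) x) = En N x →
    0 < En N x → ClosedGeod X (N * δ)

/-- Birkhoff curve shortening -/
def S_BK : Prop := ∀ (X : Type) [MetricSpace X] [CompactSpace X] (r : ℝ) (m : X → X → ℝ → X),
  GMap X r m → ∀ (N : ℕ) [NeZero N] (δ : ℝ), 0 < δ → δ ≤ r →
    (∀ x ∈ Pol X N δ, (δ / (2 * N)) ^ 2 ≤ En N x → En N (ph m N (1 / 2) x) ≠ En N x) →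
    PolC X N δ

/-- homotopy lifting for the orbit map -/
def S_LIFT : Prop := ∀ (X G : Type) [MetricSpace X] [Group G] [TopologicalSpace G]
  [IsTopologicalGroup G] [MulAction G X] [ContinuousSMul G X] (p : X) (lam : ℝ),
  (∀ (g : G) (x y : X), dist (g • x) (g • y) ≤ lam * dist x y) → LocSec X G p →
  ∀ (K : Type) [MetricSpace K] [CompactSpace K] (b : K → ℝ → X),
    Continuous (fun z : K × ℝ => b z.1 z.2) → (∀ k s, s ≤ 0 → b k s = p) →
    (∀ k s, 1 ≤ s → b k s = b k 1) →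
    ∃ g : K → ℝ → G, Continuous (fun z : K × ℝ => g z.1 z.2) ∧ (∀ k s, s ≤ 0 → g k s = 1) ∧
      (∀ k s, 1 ≤ s → g k s = g k 1) ∧ (∀ k s, g k s • p = b k s) ∧
      ∀ k, (∀ s, b k s = p) → ∀ s, g k s = 1

/-- transport of the contraction to the first vertex `p` -/
def S_TR : Prop := ∀ (X G : Type) [MetricSpace X] [CompactSpace X] [Group G] [TopologicalSpace G]
  [IsTopologicalGroup G] [MulAction G X] [ContinuousSMul G X] (p : X) (lam : ℝ),
  (∀ (g : G) (x y : X), dist (g • x) (g • y) ≤ lam * dist x y) → LocSec X G p →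
  0 ≤ lam → ∀ (N : ℕ) [NeZero N] (δ : ℝ), PolC X N δ → PolpC X N δ (lam * δ) p

/-- from polygons to loops -/
def S_OM : Prop := ∀ (X : Type) [MetricSpace X] (r : ℝ) (m : X → X → ℝ → X), GMap X r m →
  ∀ (p : X) (lam a : ℝ) (N : ℕ) [NeZero N], 1 ≤ lam → 0 < a → lam * (a / N) ≤ r →
    PolpC X N (a / N) (lam * (a / N)) p → OmC p a (lam * a)

/-- the homotopy between two paths with the same end -/
def CP {X : Type} [MetricSpace X] (p : X) (a b B : ℝ) : Prop :=
  ∃ C : ↥(Qa p a b) → ℝ → (ℝ → X), Continuous (fun z : ↥(Qa p a b) × ℝ => C z.1 z.2) ∧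
    (∀ z s, C z s ∈ Pa p B) ∧ (∀ z s, C z s B = z.1.1 a) ∧
    (∀ z s, s ≤ 1 / 4 → C z s = z.1.1) ∧ (∀ z s, 3 / 4 ≤ s → C z s = z.1.2) ∧
    ∀ z, z.1.1 = (fun _ => p) → z.1.2 = (fun _ => p) → ∀ s, C z s = fun _ => p

def S_CP : Prop := ∀ (X : Type) [MetricSpace X] (p : X) (a b B : ℝ), 0 ≤ a → 0 ≤ b →
  a + b ≤ B → OmC p (a + b) B → CP p a b (B + b)

/-- one step of the construction of the section of the evaluation map -/
def S_STEP : Prop := ∀ (X K : Type) [MetricSpace X] [TopologicalSpace K] (p : X) (a b B : ℝ),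
  0 ≤ a → 0 ≤ b → a ≤ B → b ≤ B → CP p a b B → ∀ (f : K → X) (A : Set K) (T t : K → ℝ)
  (Γ ρ : K → ℝ → X), Continuous T → Continuous t → (∀ k, 0 ≤ T k) → (∀ k, 0 ≤ t k) →
  ContinuousOn Γ {k | 0 < T k} → ContinuousOn ρ {k | 0 < t k} →
  (∀ k, 0 < T k → Γ k ∈ Pa p a ∧ Γ k a = f k) → (∀ k, 0 < t k → ρ k ∈ Pa p b ∧ ρ k b = f k) →
  (∀ k ∈ A, 0 < T k → Γ k = fun _ => p) → (∀ k ∈ A, 0 < t k → ρ k = fun _ => p) →
  ∃ Γ' : K → ℝ → X, ContinuousOn Γ' {k | 0 < T k + t k} ∧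
    (∀ k, 0 < T k + t k → Γ' k ∈ Pa p B ∧ Γ' k B = f k) ∧
    ∀ k ∈ A, 0 < T k + t k → Γ' k = fun _ => p

/-- the local data: `q + 1` weights and families of paths -/
def Data {X K : Type} [MetricSpace X] [TopologicalSpace K] (p : X) (b : ℝ) (q : ℕ) (f : K → X)
    (A : Set K) (t : ℕ → K → ℝ) (ρ : ℕ → K → ℝ → X) : Prop :=
  (∀ j, Continuous (t j)) ∧ (∀ j k, 0 ≤ t j k) ∧ (∀ k, ∃ j, j ≤ q ∧ 0 < t j k) ∧
  (∀ j, ContinuousOn (ρ j) {k | 0 < t j k}) ∧
  (∀ j k, 0 < t j k → ρ j k ∈ Pa p b ∧ ρ j k b = f k) ∧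
  ∀ j, ∀ k ∈ A, 0 < t j k → ρ j k = fun _ => p

/-- the construction -/
def S_REC : Prop := ∀ (X K : Type) [MetricSpace X] [TopologicalSpace K] (p : X) (lam b : ℝ)
  (q : ℕ), 1 ≤ lam → 0 ≤ b → (∀ j, j < q → OmC p (al lam b j + b) (lam * (al lam b j + b))) →
  ∀ (f : K → X) (A : Set K) (t : ℕ → K → ℝ) (ρ : ℕ → K → ℝ → X), Data p b q f A t ρ →
  ∃ Γ : K → ℝ → X, Continuous Γ ∧ (∀ k, Γ k ∈ Pa p (al lam b q) ∧ Γ k (al lam b q) = f k) ∧
    ∀ k ∈ A, Γ k = fun _ => p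

/-- the local data exist -/
def S_SET : Prop := ∀ (X K : Type) [MetricSpace X] [MetricSpace K] [CompactSpace K] (q : ℕ),
  CovDim K q → ∀ (r : ℝ) (m : X → X → ℝ → X), GMap X r m → ∀ (p : X) (D : ℝ), 0 ≤ D →
  (∀ y : X, ∃ c ∈ Pa p D, c D = y) → ∀ ε : ℝ, 0 < ε → ε ≤ r → ∀ (f : K → X), Continuous f →
  ∀ A : Set K, (∀ k ∈ A, f k = p) → ∃ (t : ℕ → K → ℝ) (ρ : ℕ → K → ℝ → X),
    Data p (D + ε) q f A t ρ

/-- the cube has covering dimension at most `q` -/
def S_KUHN : Prop := ∀ q : ℕ, CovDim (Fin q → I) q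

/-! ### elementary facts -/

/-- joint continuity of the evaluation for families of curves of speed at most one -/
theorem eval_within {Z X : Type} [TopologicalSpace Z] [MetricSpace X] {F : Z → ℝ → X} {τ : Z → ℝ}
    {S : Set Z} {z₀ : Z} (_hz : z₀ ∈ S) (hF : ContinuousWithinAt F S z₀)
    (hL : ∀ z ∈ S, ∀ s t, dist (F z s) (F z t) ≤ |s - t|) (hτ : ContinuousWithinAt τ S z₀) :
    ContinuousWithinAt (fun z => F z (τ z)) S z₀ := by
  have h1 : Filter.Tendsto (fun z => dist (F z (τ z₀)) (F z₀ (τ z₀))) (𝓝[S] z₀) (𝓝 0) := by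
    have h2 : ContinuousWithinAt (fun z => F z (τ z₀)) S z₀ :=
      ((continuous_apply (τ z₀)).continuousAt.comp_continuousWithinAt hF)
    exact tendsto_iff_dist_tendsto_zero.1 h2
  have h3 : Filter.Tendsto (fun z => |τ z - τ z₀|) (𝓝[S] z₀) (𝓝 0) := by
    have := tendsto_iff_dist_tendsto_zero.1 hτ
    simpa [Real.dist_eq] using this
  refine tendsto_iff_dist_tendsto_zero.2 (squeeze_zero' (Filter.Eventually.of_forall
    fun z => dist_nonneg) ?_ (by simpa using h3.add h1))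
  filter_upwards [self_mem_nhdsWithin] with z hz'
  exact (dist_triangle _ (F z (τ z₀)) _).trans (add_le_add (hL z hz' _ _) le_rfl)

theorem eval_cont {Z X : Type} [TopologicalSpace Z] [MetricSpace X] {F : Z → ℝ → X} {τ : Z → ℝ}
    (hF : Continuous F) (hL : ∀ z s t, dist (F z s) (F z t) ≤ |s - t|) (hτ : Continuous τ) :
    Continuous (fun z => F z (τ z)) := by
  rw [← continuousOn_univ]
  intro z _
  exact eval_within (mem_univ z) hF.continuousWithinAt (fun z _ => hL z) hτ.continuousWithinAt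

theorem GMap.self {X : Type} [MetricSpace X] {r : ℝ} {m : X → X → ℝ → X} (h : GMap X r m)
    (hr : 0 ≤ r) (x : X) {t : ℝ} (ht : t ∈ Icc (0 : ℝ) 1) : m x x t = x := by
  have h0 : dist x x ≤ r := by rw [dist_self]; exact hr
  have h1 := h.dist_eq x x h0 t ht 0 ⟨le_rfl, zero_le_one⟩
  rw [dist_self, mul_zero, h.zero x x h0, dist_eq_zero] at h1
  exact h1

theorem GMap.dist_left {X : Type} [MetricSpace X] {r : ℝ} {m : X → X → ℝ → X} (h : GMap X r m)
    {x y : X} (hr : dist x y ≤ r) {t : ℝ} (ht : t ∈ Icc (0 : ℝ) 1) :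
    dist x (m x y t) = t * dist x y := by
  have h1 := h.dist_eq x y hr 0 ⟨le_rfl, zero_le_one⟩ t ht
  rwa [h.zero x y hr, zero_sub, abs_neg, abs_of_nonneg ht.1] at h1

theorem GMap.dist_right {X : Type} [MetricSpace X] {r : ℝ} {m : X → X → ℝ → X} (h : GMap X r m)
    {x y : X} (hr : dist x y ≤ r) {t : ℝ} (ht : t ∈ Icc (0 : ℝ) 1) :
    dist (m x y t) y = (1 - t) * dist x y := by
  have h1 := h.dist_eq x y hr t ht 1 ⟨zero_le_one, le_rfl⟩
  rwa [h.one x y hr, abs_sub_comm, abs_of_nonneg (by linarith [ht.2])] at h1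

theorem Om.mono {X : Type} [MetricSpace X] {p : X} {a a' : ℝ} (h : a ≤ a') :
    Om p a ⊆ Om p a' := fun _ hd => ⟨hd.1, hd.2.1, fun t ht => hd.2.2 t (h.trans ht)⟩

theorem Pa.mono {X : Type} [MetricSpace X] {p : X} {a a' : ℝ} (h : a ≤ a') :
    Pa p a ⊆ Pa p a' := fun _ hd => ⟨hd.1, hd.2.1, fun t ht => by
      rw [hd.2.2 t (h.trans ht), hd.2.2 a' h]⟩

theorem Htp.mono {Y W : Type} [TopologicalSpace Y] [TopologicalSpace W] {T T' : Set W}
    {Z : Set Y} {f g : Y → W} (h : Htp T Z f g) (hT : T ⊆ T') : Htp T' Z f g := by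
  obtain ⟨H, h1, h2, h3, h4, h5⟩ := h
  exact ⟨H, h1, fun y s => hT (h2 y s), h3, h4, h5⟩

theorem Htp.trans {Y W : Type} [TopologicalSpace Y] [TopologicalSpace W] {T : Set W}
    {Z : Set Y} {f g k : Y → W} (h : Htp T Z f g) (h' : Htp T Z g k) : Htp T Z f k := by
  obtain ⟨H, h1, h2, h3, h4, h5⟩ := h
  obtain ⟨H', h1', h2', h3', h4', h5'⟩ := h'
  refine ⟨fun y s => if s ≤ 1 / 2 then H y (2 * s) else H' y (2 * s - 1), ?_, ?_, ?_, ?_, ?_⟩
  · refine Continuous.if_le ?_ ?_ continuous_snd continuous_const ?_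
    · exact h1.comp (continuous_fst.prodMk (continuous_const.mul continuous_snd))
    · exact h1'.comp (continuous_fst.prodMk ((continuous_const.mul continuous_snd).sub
        continuous_const))
    · intro z hz
      rw [h4 _ _ (by linarith), h3' _ _ (by linarith)]
  · intro y s
    dsimp only
    split_ifs
    · exact h2 _ _
    · exact h2' _ _
  · intro y s hs
    dsimp only
    rw [if_pos (by linarith), h3 _ _ (by linarith)]
  · intro y s hs
    dsimp only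
    rw [if_neg (by linarith), h4' _ _ (by linarith)]
  · intro y hy s
    dsimp only
    have hg : f y = g y := by
      rw [← h5 y hy 1, h4 y 1 le_rfl]
    split_ifs
    · exact h5 y hy _
    · rw [h5' y hy, hg]

/-- precomposition -/
theorem Htp.precomp {Y Y' W : Type} [TopologicalSpace Y] [TopologicalSpace Y']
    [TopologicalSpace W] {T : Set W} {Z : Set Y} {Z' : Set Y'} {f g : Y → W} (h : Htp T Z f g)
    (u : Y' → Y) (hu : Continuous u) (hZ : ∀ y ∈ Z', u y ∈ Z) :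
    Htp T Z' (fun y => f (u y)) (fun y => g (u y)) := by
  obtain ⟨H, h1, h2, h3, h4, h5⟩ := h
  exact ⟨fun y s => H (u y) s, h1.comp ((hu.comp continuous_fst).prodMk continuous_snd),
    fun y s => h2 _ _, fun y s hs => h3 _ _ hs, fun y s hs => h4 _ _ hs,
    fun y hy s => h5 _ (hZ y hy) s⟩

/-- from the unit interval to the line -/
theorem Htp.of_clamp {Y W : Type} [TopologicalSpace Y] [TopologicalSpace W] {T : Set W}
    {Z : Set Y} {f g : Y → W} (H : Y → ℝ → W)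
    (h1 : ContinuousOn (fun z : Y × ℝ => H z.1 z.2) {z | z.2 ∈ Icc (0 : ℝ) 1})
    (h2 : ∀ y, ∀ s ∈ Icc (0 : ℝ) 1, H y s ∈ T) (h3 : ∀ y, H y 0 = f y) (h4 : ∀ y, H y 1 = g y)
    (h5 : ∀ y ∈ Z, ∀ s ∈ Icc (0 : ℝ) 1, H y s = f y) : Htp T Z f g := by
  have hm : ∀ s : ℝ, max 0 (min s 1) ∈ Icc (0 : ℝ) 1 := fun s =>
    ⟨le_max_left _ _, max_le zero_le_one (min_le_right _ _)⟩
  refine ⟨fun y s => H y (max 0 (min s 1)), ?_, fun y s => h2 _ _ (hm s), ?_, ?_, ?_⟩
  · have : Continuous fun z : Y × ℝ => ((z.1, max 0 (min z.2 1)) : Y × ℝ) := by fun_prop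
    exact h1.comp_continuous this fun z => hm z.2
  · intro y s hs
    dsimp only
    rw [max_eq_left (by rw [min_eq_left (by linarith)]; exact hs), h3]
  · intro y s hs
    dsimp only
    rw [min_eq_right hs, max_eq_right zero_le_one, h4]
  · intro y hy s
    exact h5 y hy _ (hm s)

end Pool.Agent.Y489.GE
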