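import Pool.Agent.Y489.GE.Stm

/-!
# Project GE, second part: volume and width (helper489)

Definitions and statements.
-/

set_option autoImplicit false

open Set Topology MeasureTheory

noncomputable section

namespace Pool.Agent.Y489.GE

/-- a finite open cover by sets of diameter at most `w`, every point in at most `n` of them -/
def Cov (X : Type) [MetricSpace X] (w : ℝ) (n : ℕ) : Prop :=
  ∃ (N : ℕ) (U : Fin N → Set X), (∀ i, IsOpen (U i)) ∧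
    (∀ i, ∀ x ∈ U i, ∀ y ∈ U i, dist x y ≤ w) ∧ (∀ x, ∃ i, x ∈ U i) ∧
    ∀ x, Nat.card {i : Fin N // x ∈ U i} ≤ n

theorem covDim_iff (K : Type) [MetricSpace K] (q : ℕ) :
    CovDim K q ↔ ∀ ε : ℝ, 0 < ε → Cov K ε (q + 1) := Iff.rfl

/-- the face `σ` of the standard simplex with vertex set `W` -/
def Fac {W : Type} [Fintype W] (σ : Finset W) : Set (W → ℝ) :=
  {y | (∀ w, 0 ≤ y w) ∧ ∑ w, y w = 1 ∧ ∀ w, y w ≠ 0 → w ∈ σ}

/-- the boundary of the face `σ` -/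
def Bd {W : Type} [Fintype W] (σ : Finset W) : Set (W → ℝ) :=
  {y | y ∈ Fac σ ∧ ∃ w ∈ σ, y w = 0}

/-- the polyhedron with the faces in `F` -/
def Poly {W : Type} [Fintype W] (F : Set (Finset W)) : Set (W → ℝ) :=
  {y | ∃ σ ∈ F, y ∈ Fac σ}

/-- the identity is homotopic to a map which factors through a finite polyhedron all of whose
simplices have at most `k` vertices -/
def Dom (X : Type) [TopologicalSpace X] (k : ℕ) : Prop :=
  ∃ (N : ℕ) (F : Set (Finset (Fin N))) (ν : C(X, ↥(Poly F))) (Φ : C(↥(Poly F), X)),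
    (∀ σ ∈ F, σ.card ≤ k) ∧ ContinuousMap.Homotopic (ContinuousMap.id X) (Φ.comp ν)

/-- maps of spaces of dimension at most `q` into balls of radius `s ≤ s₀` are contractible in the
concentric balls of radius `Lam * s` -/
def LC (X : Type) [MetricSpace X] (q : ℕ) (s₀ Lam : ℝ) : Prop :=
  ∀ (p : X) (K : Type) [MetricSpace K] [CompactSpace K], CovDim K q → ∀ f : K → X,
    Continuous f → ∀ s : ℝ, 0 < s → s ≤ s₀ → (∀ k, dist p (f k) ≤ s) →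
    ∃ H : K → ℝ → X, Continuous (fun z : K × ℝ => H z.1 z.2) ∧ (∀ k, H k 0 = p) ∧
      (∀ k, H k 1 = f k) ∧ ∀ k, ∀ u ∈ Icc (0 : ℝ) 1, dist p (H k u) ≤ Lam * s

/-- constants of the extension lemma -/
def cE (Lam : ℝ) : ℕ → ℝ
  | 0 => 1
  | k + 1 => Lam * cE Lam k + 2

/-- `Y` cuts `X` into finitely many disjoint open pieces of diameter at most `r` -/
def CutSet (X : Type) [MetricSpace X] (r : ℝ) (Y : Set X) : Prop :=
  IsClosed Y ∧ ∃ (N : ℕ) (O : Fin N → Set X), (∀ i, IsOpen (O i)) ∧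
    (∀ i, ∀ x ∈ O i, ∀ y ∈ O i, dist x y ≤ r) ∧ (∀ i j, i ≠ j → Disjoint (O i) (O j)) ∧
    Yᶜ = ⋃ i, O i

/-! ### the statements -/

/-- S_SET with a weaker hypothesis -/
def S_SETL : Prop := ∀ (X K : Type) [MetricSpace X] [MetricSpace K] [CompactSpace K] (q : ℕ),
  CovDim K q → ∀ (r : ℝ) (m : X → X → ℝ → X), GMap X r m → ∀ (p : X) (D : ℝ), 0 ≤ D →
  ∀ ε : ℝ, 0 < ε → ε ≤ r → ∀ (f : K → X), Continuous f →
  (∀ k : K, ∃ c ∈ Pa p D, c D = f k) →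
  ∀ A : Set K, (∀ k ∈ A, f k = p) → ∃ (t : ℕ → K → ℝ) (ρ : ℕ → K → ℝ → X),
    Data p (D + ε) q f A t ρ

/-- the slicing inequality -/
def S_EIL : Prop := ∀ (X : Type) [MetricSpace X] [MeasurableSpace X] [BorelSpace X] (m : ℕ)
  (A : Set X) (f : X → ℝ), LipschitzWith 1 f → ∀ a b : ℝ, a < b → ∃ ρ ∈ Ioo a b,
    ENNReal.ofReal (b - a) * μH[(m : ℝ)] (A ∩ f ⁻¹' {ρ}) ≤ μH[(m : ℝ) + 1] A

/-- almost minimal cuts -/
def S_CUT : Prop := ∀ (X : Type) [MetricSpace X] [CompactSpace X] [MeasurableSpace X]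
  [BorelSpace X] (m : ℕ) (r c : ℝ), 0 < r → 0 < c →
  (∀ x : X, μH[(m : ℝ) + 1] (Metric.closedBall x r) < ENNReal.ofReal (c * r ^ (m + 1))) →
  ∃ Y : Set X, CutSet X r Y ∧
    ∀ x : X, μH[(m : ℝ)] (Y ∩ Metric.closedBall x (r / 4)) < ENNReal.ofReal (5 * c * r ^ m)

/-- extension of covers from a cut -/
def S_THICK : Prop := ∀ (X : Type) [MetricSpace X] [CompactSpace X] (r : ℝ) (m : ℕ) (Y : Set X),
  0 < r → CutSet X r Y → Cov ↥Y (r / 4) m → Cov X r (m + 1)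

/-- small measure gives small width -/
def S_WID : Prop := ∀ m : ℕ, ∃ c : ℝ, 0 < c ∧ ∀ (X : Type) [MetricSpace X] [CompactSpace X]
  [MeasurableSpace X] [BorelSpace X] (r : ℝ), 0 < r →
  (∀ x : X, μH[(m : ℝ)] (Metric.closedBall x r) < ENNReal.ofReal (c * r ^ m)) → Cov X r m

/-- filling of a simplex -/
def S_CONE : Prop := ∀ (X W : Type) [MetricSpace X] [Fintype W] (σ : Finset W),
  2 ≤ σ.card → ∀ (p : X) (H : ↥(Bd σ) → ℝ → X), Continuous (fun z : ↥(Bd σ) × ℝ => H z.1 z.2) →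
  (∀ k, H k 0 = p) → ∃ g : (W → ℝ) → X, ContinuousOn g (Fac σ) ∧ (∀ y : ↥(Bd σ), g y.1 = H y 1) ∧
    ∀ y ∈ Fac σ, ∃ y' : ↥(Bd σ), ∃ u ∈ Icc (0 : ℝ) 1, g y = H y' u

/-- the boundary of a simplex is compact and finite dimensional -/
def S_BD : Prop := ∀ (W : Type) [Fintype W] (σ : Finset W) (q : ℕ), σ.card ≤ q →
  CompactSpace ↥(Bd σ) ∧ CovDim ↥(Bd σ) q

/-- the extension lemma -/
def S_EXT : Prop := ∀ (X : Type) [MetricSpace X] (q : ℕ) (s₀ Lam : ℝ), 1 ≤ Lam →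
  LC X q s₀ Lam → ∀ (W : Type) [Fintype W] (F : Set (Finset W)) (x : W → X)
  (s : Finset W → ℝ), (∀ σ ∈ F, σ.card ≤ q) → (∀ σ ∈ F, ∀ τ, τ ⊆ σ → τ ∈ F) →
  (∀ σ ∈ F, ∀ τ, τ ⊆ σ → s τ ≤ s σ) → (∀ σ ∈ F, 0 < s σ) → (∀ σ ∈ F, cE Lam q * s σ ≤ s₀) →
  (∀ σ ∈ F, ∀ v ∈ σ, ∀ w ∈ σ, dist (x v) (x w) ≤ s σ) →
  ∃ Φ : C(↥(Poly F), X), ∀ σ ∈ F, ∀ y : ↥(Poly F), y.1 ∈ Fac σ → ∀ w ∈ σ,
    dist (x w) (Φ y) ≤ cE Lam q * s σ

/-- maps through the nerve -/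
def S_NRV : Prop := ∀ (X : Type) [MetricSpace X] [CompactSpace X] (r : ℝ)
  (m : X → X → ℝ → X), GMap X r m → 0 < r → ∀ (n : ℕ) (s₀ Lam w : ℝ), 1 ≤ Lam →
  LC X (2 * n + 1) s₀ Lam → CovDim X n → 0 < w → Cov X w n →
  cE Lam (2 * n + 1) * (2 * w) ≤ s₀ → Dom X n

end Pool.Agent.Y489.GE
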